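import Pool.Agent.Y50.RD.Stm2

/-! A diagram group of infinite rank (helper917, job of helper50). -/

set_option autoImplicit false

namespace Pool.Agent.Y917.RD

open CategoryTheory TensorProduct Pool.Agent.H333R3.DG

/-- the presentation -/
abbrev Q : Pres := (4, [([0], [0, 1]), ([0], [2]), ([2], [3]), ([3], [0])])

theorem proper_Q : Proper Q := by
  unfold Proper IsWord
  decide

/-- the vertices `h 1^k` -/
def vx (h : ℕ) (hh : h < 4) (k : ℕ) : Vertex Q :=
  ⟨h :: List.replicate k 1, by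
    refine ⟨List.cons_ne_nil _ _, ?_⟩
    intro a ha
    rcases List.mem_cons.1 ha with rfl | h1
    · exact hh
    · rw [List.eq_of_mem_replicate h1]
      show 1 < 4
      norm_num⟩

/-- growing edge -/
def e0 (k : ℕ) : vx 0 (by norm_num) k ⟶ vx 0 (by norm_num) (k + 1) :=
  (⟨[], List.replicate k 1, ([0], [0, 1]), by simp, rfl, rfl⟩ : Edge Q _ _)

/-- first edge of the triangle -/
def e1 (k : ℕ) : vx 0 (by norm_num) k ⟶ vx 2 (by norm_num) k :=
  (⟨[], List.replicate k 1, ([0], [2]), by simp, rfl, rfl⟩ : Edge Q _ _)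

/-- second edge of the triangle -/
def e2 (k : ℕ) : vx 2 (by norm_num) k ⟶ vx 3 (by norm_num) k :=
  (⟨[], List.replicate k 1, ([2], [3]), by simp, rfl, rfl⟩ : Edge Q _ _)

/-- third edge of the triangle -/
def e3 (k : ℕ) : vx 3 (by norm_num) k ⟶ vx 0 (by norm_num) k :=
  (⟨[], List.replicate k 1, ([3], [0]), by simp, rfl, rfl⟩ : Edge Q _ _)

open Classical in
/-- the prefunctor -/
noncomputable def pre (k : ℕ) : Vertex Q ⥤q SingleObj (Multiplicative ℤ) where
  obj _ := SingleObj.star _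
  map {x y} (e : Edge Q x y) :=
    (if e.a = [] ∧ e.r = ([0], [2]) ∧ e.b = List.replicate k 1 then Multiplicative.ofAdd 1 else 1 :
      Multiplicative ℤ)

theorem head_rel (u v : List ℕ) (h : (u, v) ∈ Q.2) :
    (∃ a ∈ u, a ≠ 1) ∧ (∃ a ∈ v, a ≠ 1) ∧ u ≠ [] ∧ v ≠ [] := by
  simp only [List.mem_cons, Prod.mk.injEq, List.not_mem_nil, or_false] at h
  rcases h with ⟨rfl, rfl⟩ | ⟨rfl, rfl⟩ | ⟨rfl, rfl⟩ | ⟨rfl, rfl⟩ <;> decide

theorem not_rep (b c u : List ℕ) (k : ℕ) (h : ∃ a ∈ u, a ≠ 1) :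
    b ++ u ++ c ≠ List.replicate k 1 := by
  intro e
  obtain ⟨a, ha, h1⟩ := h
  apply h1
  have h2 : a ∈ b ++ u ++ c := by simp [ha]
  rw [e] at h2
  exact List.eq_of_mem_replicate h2

open Classical in
/-- the functor -/
noncomputable def cou (k : ℕ) : Squier Q ⥤ SingleObj (Multiplicative ℤ) :=
  CategoryTheory.Quotient.lift (SquareRel Q) (Quiver.FreeGroupoid.lift (pre k))
    (by
      rintro _ _ _ _ ⟨e₁, e₂, e₃, e₄, h⟩
      obtain ⟨a, b, c, u, v, u', v', h1, h2, h3, h4⟩ := h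
      rw [Functor.map_comp, Functor.map_comp, lift_of, lift_of, lift_of, lift_of]
      have m1 : (u, v) ∈ Q.2 := h1.2.1 ▸ e₁.mem
      have m2 : (u', v') ∈ Q.2 := h2.2.1 ▸ e₂.mem
      obtain ⟨p1, p2, p3, p4⟩ := head_rel u v m1
      obtain ⟨q1, q2, q3, q4⟩ := head_rel u' v' m2
      have c1 : ¬ (e₁.a = [] ∧ e₁.r = ([0], [2]) ∧ e₁.b = List.replicate k 1) := by
        rintro ⟨_, _, h⟩
        rw [h1.2.2] at h
        exact not_rep b c u' k q1 h
      have c4 : ¬ (e₄.a = [] ∧ e₄.r = ([0], [2]) ∧ e₄.b = List.replicate k 1) := by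
        rintro ⟨_, _, h⟩
        rw [h4.2.2] at h
        exact not_rep b c v' k q2 h
      have c2 : ¬ (e₂.a = [] ∧ e₂.r = ([0], [2]) ∧ e₂.b = List.replicate k 1) := by
        rintro ⟨h, _⟩
        rw [h2.1] at h
        simp only [List.append_eq_nil_iff] at h
        exact p4 h.1.2
      have c3 : ¬ (e₃.a = [] ∧ e₃.r = ([0], [2]) ∧ e₃.b = List.replicate k 1) := by
        rintro ⟨h, _⟩
        rw [h3.1] at h
        simp only [List.append_eq_nil_iff] at h
        exact p3 h.1.2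
      change (if e₂.a = [] ∧ e₂.r = ([0], [2]) ∧ e₂.b = List.replicate k 1 then
          Multiplicative.ofAdd 1 else 1 : Multiplicative ℤ) *
        (if e₁.a = [] ∧ e₁.r = ([0], [2]) ∧ e₁.b = List.replicate k 1 then
          Multiplicative.ofAdd 1 else 1 : Multiplicative ℤ) =
        (if e₄.a = [] ∧ e₄.r = ([0], [2]) ∧ e₄.b = List.replicate k 1 then
          Multiplicative.ofAdd 1 else 1 : Multiplicative ℤ) *
        (if e₃.a = [] ∧ e₃.r = ([0], [2]) ∧ e₃.b = List.replicate k 1 then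
          Multiplicative.ofAdd 1 else 1 : Multiplicative ℤ)
      rw [if_neg c1, if_neg c2, if_neg c3, if_neg c4])

/-- the value of the functor -/
noncomputable def ct (k : ℕ) {x y : Vertex Q} (g : pt x ⟶ pt y) : Multiplicative ℤ := (cou k).map g

theorem ct_comp (k : ℕ) {x y z : Vertex Q} (g : pt x ⟶ pt y) (h : pt y ⟶ pt z) :
    ct k (g ≫ h) = ct k g * ct k h := by
  unfold ct
  rw [Functor.map_comp]
  exact mul_comm (G := Multiplicative ℤ) _ _

theorem ct_id (k : ℕ) (x : Vertex Q) : ct k (𝟙 (pt x)) = 1 := by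
  unfold ct
  rw [CategoryTheory.Functor.map_id]
  rfl

theorem ct_inv (k : ℕ) {x y : Vertex Q} (g : pt x ⟶ pt y) :
    ct k (Groupoid.inv g) = (ct k g)⁻¹ := by
  rw [eq_inv_iff_mul_eq_one, ← ct_comp, Groupoid.inv_comp, ct_id]

open Classical in
theorem ct_ed (k : ℕ) {x y : Vertex Q} (e : x ⟶ y) :
    ct k (ed e) = if (show Edge Q x y from e).a = [] ∧ (show Edge Q x y from e).r = ([0], [2]) ∧
      (show Edge Q x y from e).b = List.replicate k 1 then Multiplicative.ofAdd 1 else 1 := by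
  exact lift_of (pre k) e

/-- the homomorphism -/
noncomputable def cth (k : ℕ) (w : Vertex Q) : DiagramGroup Q w →* Multiplicative ℤ where
  toFun g := ct k g
  map_one' := ct_id k w
  map_mul' g h := ct_comp k g h

/-- the path to `0 1^k` -/
noncomputable def pp : ∀ k : ℕ, pt (vx 0 (by norm_num) 0) ⟶ pt (vx 0 (by norm_num) k)
  | 0 => 𝟙 _
  | k + 1 => pp k ≫ ed (e0 k)

/-- the loops -/
noncomputable def TT (j : ℕ) : DiagramGroup Q (vx 0 (by norm_num) 0) :=
  pp j ≫ ((ed (e1 j) ≫ ed (e2 j) ≫ ed (e3 j)) ≫ Groupoid.inv (pp j))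

theorem ct_TT (k j : ℕ) : cth k _ (TT j) = if j = k then Multiplicative.ofAdd 1 else 1 := by
  classical
  change ct k (pp j ≫ ((ed (e1 j) ≫ ed (e2 j) ≫ ed (e3 j)) ≫ Groupoid.inv (pp j))) = _
  have h1 : ct k (ed (e1 j)) = if j = k then Multiplicative.ofAdd 1 else 1 := by
    rw [ct_ed]
    change (if ([] : List ℕ) = [] ∧ (([0], [2]) : List ℕ × List ℕ) = ([0], [2]) ∧
      List.replicate j 1 = List.replicate k 1 then _ else _) = _
    by_cases hjk : j = k
    · rw [if_pos hjk, if_pos ⟨rfl, rfl, by rw [hjk]⟩]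
    · rw [if_neg hjk, if_neg]
      rintro ⟨_, _, h⟩
      apply hjk
      have := congrArg List.length h
      simpa using this
  have h2 : ct k (ed (e2 j)) = 1 := by
    rw [ct_ed, if_neg]
    rintro ⟨_, h, _⟩
    change (([2], [3]) : List ℕ × List ℕ) = ([0], [2]) at h
    revert h
    decide
  have h3 : ct k (ed (e3 j)) = 1 := by
    rw [ct_ed, if_neg]
    rintro ⟨_, h, _⟩
    change (([3], [0]) : List ℕ × List ℕ) = ([0], [2]) at h
    revert h
    decide
  rw [ct_comp, ct_comp, ct_comp, ct_comp, ct_inv, h1, h2, h3, mul_one, mul_one,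
    mul_comm (if j = k then _ else _), mul_inv_cancel_left]

theorem t : Pool.Agent.Y50.RD.S_inf := by
  refine ⟨Q, vx 0 (by norm_num) 0, proper_Q, ?_⟩
  have hli : LinearIndependent ℚ (fun j : ℕ => tt (TT j)) := by
    refine LinearIndependent.of_pairwise_dual_eq_zero_one _
      (fun k => func (cth k (vx 0 (by norm_num) 0))) ?_ ?_
    · intro k j hkj
      change func (cth k _) (tt (TT j)) = 0
      rw [func_tt, ct_TT, if_neg (Ne.symm hkj)]
      simp
    · intro k
      change func (cth k _) (tt (TT k)) = 1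
      rw [func_tt, ct_TT, if_pos rfl]
      simp
  have h := hli.aleph0_le_rank
  unfold abRank
  rw [if_neg]
  exact not_lt.2 h

end Pool.Agent.Y917.RD
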